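import Mathlib
import Pool.Agent.R439.FD.FA

set_option autoImplicit false

/-!
Exact identities for MP_fdcced_nt, Q2: with `c_k = C(2k,k)/4^k`,
`∑_k C(n,k) C(-n-1/2,k) (-1/8)^k = 2^(-n) ∑_k C(2n,k) c_k`.
-/

namespace Pool.Agent.P8H8.FD2

open Finset Pool.Agent.R439 Pool.Agent.R439.W3 Pool.Agent.R439.S4 Pool.Agent.R439.FD
open Pool.Agent.R488.Cub (gb)

/-! ### The sum with a general argument -/

def xt (x : ℚ) (n k : ℕ) : ℚ := (n.choose k : ℚ) * gq n k * x ^ k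

def xv (x : ℚ) (n k : ℕ) : ℚ := ((n + 2).choose k : ℚ) * gq n k * x ^ k

def QX (x : ℚ) (n : ℕ) : ℚ := ∑ k ∈ range (n + 1), xt x n k

def BX (x n : ℚ) : ℚ := (2 * n + 3) ^ 2 * (4 * n + 3) -
  (1 - x) * ((4 * n + 5) * (4 * n + 7) * (4 * n + 3)) + (2 * n + 2) ^ 2 * (4 * n + 7)

theorem QX_rec (x : ℚ) (n : ℕ) :
    AAn n * QX x (n + 2) + BX x n * QX x (n + 1) + CCn n * QX x n = 0 := by
  have c1 : (n : ℚ) + 1 ≠ 0 := by positivity
  have c2 : (n : ℚ) + 2 ≠ 0 := by positivity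
  have c3 : (n : ℚ) + 1 / 2 ≠ 0 := by positivity
  have c4 : (n : ℚ) + 1 + 1 / 2 ≠ 0 := by positivity
  have h1 : ∀ k : ℕ, AAn n * xt x (n + 2) k + BX x n * xt x (n + 1) k + CCn n * xt x n k =
      -((4 * (n : ℚ) + 3) * (4 * n + 5) * (4 * n + 7)) * ((k + 1 : ℕ) : ℚ) ^ 2 * xv x n (k + 1) /
        (((n : ℚ) + 2) * ((n : ℚ) + 1 / 2)) - -((4 * (n : ℚ) + 3) * (4 * n + 5) * (4 * n + 7)) *
        (k : ℚ) ^ 2 * xv x n k / (((n : ℚ) + 2) * ((n : ℚ) + 1 / 2)) := by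
    intro k
    have e1 := ch_up n k
    have e2 := ch_up (n + 1) k
    have e3 := ch_right (n + 2) k
    have e4 := gq_up n k
    have e5 := gq_up (n + 1) k
    have e6 := gb_succ (-(n : ℚ) - 1 / 2) k
    rw [show n + 1 + 1 = n + 2 by ring] at e2 e5
    have e6' : gq n (k + 1) * ((k : ℚ) + 1) = gq n k * (-(n : ℚ) - 1 / 2 - k) := e6
    push_cast at e1 e2 e3 e5
    have a1 : (n.choose k : ℚ) = ((n + 2).choose k : ℚ) * ((n : ℚ) + 2 - k) * ((n : ℚ) + 1 - k) /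
        (((n : ℚ) + 1) * (n + 2)) := by
      rw [eq_div_iff (mul_ne_zero c1 c2)]
      linear_combination ((n : ℚ) + 2) * e1 + ((n : ℚ) + 1 - k) * e2
    have a2 : ((n + 1).choose k : ℚ) = ((n + 2).choose k : ℚ) * ((n : ℚ) + 2 - k) / (n + 2) := by
      rw [eq_div_iff c2]
      linear_combination e2
    have a4 : gq (n + 1) k = gq n k * ((n : ℚ) + 1 / 2 + k) / ((n : ℚ) + 1 / 2) := by
      rw [eq_div_iff c3, e4]
    have a5 : gq (n + 2) k = gq n k * ((n : ℚ) + 1 / 2 + k) * ((n : ℚ) + 1 + 1 / 2 + k) /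
        (((n : ℚ) + 1 / 2) * ((n : ℚ) + 1 + 1 / 2)) := by
      rw [eq_div_iff (mul_ne_zero c3 c4)]
      linear_combination ((n : ℚ) + 1 / 2) * e5 + ((n : ℚ) + 1 + 1 / 2 + k) * e4
    have a6 : ((k : ℚ) + 1) ^ 2 * xv x n (k + 1) = (-x) * (((n : ℚ) + 2 - k) * ((n : ℚ) + 1 / 2 + k)) *
        xv x n k := by
      rw [xv, xv, pow_succ x k]
      linear_combination x * x ^ k * ((k : ℚ) + 1) * gq n (k + 1) * e3 +
        x * x ^ k * ((n + 2).choose k : ℚ) * ((n : ℚ) + 2 - k) * e6'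
    have a7 : ((k + 1 : ℕ) : ℚ) ^ 2 * xv x n (k + 1) = (-x) * (((n : ℚ) + 2 - k) * ((n : ℚ) + 1 / 2 + k)) *
        xv x n k := by push_cast; exact a6
    rw [mul_assoc _ (((k + 1 : ℕ) : ℚ) ^ 2), a7, xt, xt, xt, xv, a1, a2, a4, a5, AAn, BX, CCn]
    generalize ((n + 2).choose k : ℚ) = X
    generalize gq n k = Y
    generalize x ^ k = Z
    have c5 : 2 * (n : ℚ) + 1 ≠ 0 := by positivity
    have c6 : 2 * (n : ℚ) + 3 ≠ 0 := by positivity
    have b1 : (n : ℚ) + 1 / 2 = (2 * n + 1) / 2 := by ring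
    have b2 : (n : ℚ) + 1 + 1 / 2 = (2 * n + 3) / 2 := by ring
    rw [b2, b1]
    field_simp
    ring
  have h2 : ∑ k ∈ range (n + 3), (AAn n * xt x (n + 2) k + BX x n * xt x (n + 1) k +
      CCn n * xt x n k) = 0 := by
    rw [sum_congr rfl fun k _ => h1 k, sum_range_sub (fun k =>
      -((4 * (n : ℚ) + 3) * (4 * n + 5) * (4 * n + 7)) * (k : ℚ) ^ 2 * xv x n k /
        (((n : ℚ) + 2) * ((n : ℚ) + 1 / 2)))]
    rw [xv, Nat.choose_eq_zero_of_lt (by omega : n + 2 < n + 3)]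
    simp
  rw [sum_add_distrib, sum_add_distrib, ← mul_sum, ← mul_sum, ← mul_sum] at h2
  have h3 : ∑ k ∈ range (n + 3), xt x n k = QX x n := by
    rw [QX, sum_range_succ, sum_range_succ]
    have a1 : xt x n (n + 1) = 0 := by rw [xt, Nat.choose_eq_zero_of_lt (by omega : n < n + 1)]; simp
    have a2 : xt x n (n + 2) = 0 := by rw [xt, Nat.choose_eq_zero_of_lt (by omega : n < n + 2)]; simp
    rw [a1, a2]; ring
  have h4 : ∑ k ∈ range (n + 3), xt x (n + 1) k = QX x (n + 1) := by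
    rw [QX, sum_range_succ]
    have a1 : xt x (n + 1) (n + 2) = 0 := by
      rw [xt, Nat.choose_eq_zero_of_lt (by omega : n + 1 < n + 2)]; simp
    rw [a1]; ring
  rw [h3, h4] at h2
  exact h2

/-! ### The sum of `C(m,k) c_k` -/

def gt (m k : ℕ) : ℚ := (m.choose k : ℚ) * ch k

def GX (m : ℕ) : ℚ := ∑ k ∈ range (m + 1), gt m k

theorem GX_rec (m : ℕ) : ((m : ℚ) + 2) * GX (m + 2) - 3 / 2 * (2 * m + 3) * GX (m + 1) +
    2 * ((m : ℚ) + 1) * GX m = 0 := by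
  have c1 : (m : ℚ) + 1 ≠ 0 := by positivity
  have c2 : (m : ℚ) + 2 ≠ 0 := by positivity
  have h1 : ∀ k : ℕ, ((m : ℚ) + 2) * gt (m + 2) k - 3 / 2 * (2 * m + 3) * gt (m + 1) k +
      2 * ((m : ℚ) + 1) * gt m k = -((k + 1 : ℕ) : ℚ) ^ 2 * gt (m + 2) (k + 1) / ((m : ℚ) + 2) -
        -(k : ℚ) ^ 2 * gt (m + 2) k / ((m : ℚ) + 2) := by
    intro k
    have e1 := ch_up m k
    have e2 := ch_up (m + 1) k
    have e3 := ch_right (m + 2) k
    have e4 := ch_s k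
    rw [show m + 1 + 1 = m + 2 by ring] at e2
    push_cast at e1 e2 e3
    have a1 : (m.choose k : ℚ) = ((m + 2).choose k : ℚ) * ((m : ℚ) + 2 - k) * ((m : ℚ) + 1 - k) /
        (((m : ℚ) + 1) * (m + 2)) := by
      rw [eq_div_iff (mul_ne_zero c1 c2)]
      linear_combination ((m : ℚ) + 2) * e1 + ((m : ℚ) + 1 - k) * e2
    have a2 : ((m + 1).choose k : ℚ) = ((m + 2).choose k : ℚ) * ((m : ℚ) + 2 - k) / (m + 2) := by
      rw [eq_div_iff c2]
      linear_combination e2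
    have a3 : -((k + 1 : ℕ) : ℚ) ^ 2 * gt (m + 2) (k + 1) =
        -(((m : ℚ) + 2 - k) * ((k : ℚ) + 1 / 2)) * gt (m + 2) k := by
      rw [gt, gt]
      push_cast
      linear_combination (-((k : ℚ) + 1)) * ch (k + 1) * e3 -
        (1 / 2) * ((m + 2).choose k : ℚ) * ((m : ℚ) + 2 - k) * e4
    rw [a3, gt, gt, gt, a1, a2]
    generalize ((m + 2).choose k : ℚ) = X
    generalize ch k = Y
    field_simp
    ring
  have h2 : ∑ k ∈ range (m + 3), (((m : ℚ) + 2) * gt (m + 2) k - 3 / 2 * (2 * m + 3) * gt (m + 1) k +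
      2 * ((m : ℚ) + 1) * gt m k) = 0 := by
    rw [sum_congr rfl fun k _ => h1 k, sum_range_sub (fun k => -(k : ℚ) ^ 2 * gt (m + 2) k /
      ((m : ℚ) + 2))]
    rw [gt, Nat.choose_eq_zero_of_lt (by omega : m + 2 < m + 3)]
    simp
  rw [sum_add_distrib, sum_sub_distrib, ← mul_sum, ← mul_sum, ← mul_sum] at h2
  have h3 : ∑ k ∈ range (m + 3), gt m k = GX m := by
    rw [GX, sum_range_succ, sum_range_succ]
    have a1 : gt m (m + 1) = 0 := by rw [gt, Nat.choose_eq_zero_of_lt (by omega : m < m + 1)]; simp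
    have a2 : gt m (m + 2) = 0 := by rw [gt, Nat.choose_eq_zero_of_lt (by omega : m < m + 2)]; simp
    rw [a1, a2]; ring
  have h4 : ∑ k ∈ range (m + 3), gt (m + 1) k = GX (m + 1) := by
    rw [GX, sum_range_succ]
    have a1 : gt (m + 1) (m + 2) = 0 := by
      rw [gt, Nat.choose_eq_zero_of_lt (by omega : m + 1 < m + 2)]; simp
    rw [a1]; ring
  rw [h3, h4] at h2
  exact h2

theorem GX_two (n : ℕ) : AAn n * GX (2 * (n + 2)) + 2 * BX (-1 / 8) n * GX (2 * (n + 1)) +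
    4 * CCn n * GX (2 * n) = 0 := by
  have h0 := GX_rec (2 * n)
  have h1 := GX_rec (2 * n + 1)
  have h2 := GX_rec (2 * n + 2)
  rw [show 2 * (n + 2) = 2 * n + 2 + 2 by ring, show 2 * (n + 1) = 2 * n + 2 by ring, AAn, BX, CCn]
  rw [show 2 * n + 1 + 2 = 2 * n + 2 + 1 by ring, show 2 * n + 1 + 1 = 2 * n + 2 by ring] at h1
  push_cast at h0 h1 h2
  linear_combination (2 * (n : ℚ) + 3) * (4 * n + 3) * h2 +
    3 / 2 * (4 * (n : ℚ) + 7) * (4 * n + 3) * h1 + 2 * (2 * (n : ℚ) + 2) * (4 * n + 7) * h0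

theorem QX_GX (n : ℕ) : 2 ^ n * QX (-1 / 8) n = GX (2 * n) := by
  have key : ∀ n : ℕ, 2 ^ n * QX (-1 / 8) n = GX (2 * n) ∧
      2 ^ (n + 1) * QX (-1 / 8) (n + 1) = GX (2 * (n + 1)) := by
    intro n
    induction n with
    | zero =>
      constructor
      · simp [QX, GX, xt, gt, gq, gb, ch_zero]
      · simp [QX, GX, xt, gt, gq, gb, sum_range_succ, prod_range_succ, Nat.choose, ch_zero, ch_succ]
        norm_num
    | succ n ih =>
      refine ⟨ih.2, ?_⟩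
      have h1 := QX_rec (-1 / 8) n
      have h2 := GX_two n
      rw [← ih.1, ← ih.2] at h2
      have h3 : AAn n ≠ 0 := by rw [AAn]; positivity
      apply mul_left_cancel₀ h3
      rw [show n + 1 + 1 = n + 2 by ring]
      rw [pow_succ] at h2
      rw [pow_succ, pow_succ]
      linear_combination (-1) * h2 + 4 * 2 ^ n * h1
  exact (key n).1

end Pool.Agent.P8H8.FD2
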