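import Mathlib
import Pool.Agent.R439.FD.FC
import Pool.Agent.P8H8.FD2.A

set_option autoImplicit false

/-!
Congruences modulo `p^2` for MP_fdcced_nt, Q2.
-/

namespace Pool.Agent.P8H8.FD2

open Finset Pool.Agent.R439.W3 Pool.Agent.R439.S4 Pool.Agent.R439.PL
open Pool.Agent.R439.PL.S4 Pool.Agent.R439.FD Pool.Agent.R439.PL.FD
open Pool.Agent.R439 (ch ch_zero ch_succ)
open Pool.Agent.R488.Cub (gb H prod1 H_sub H_mem prodH prod_choose choose_pm2)

/-! ### Exact identities -/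

theorem alt_sq (n : ℕ) : ∑ k ∈ range (2 * n + 1), (-1 : ℚ) ^ k * ((2 * n).choose k : ℚ) ^ 2 =
    (-1) ^ n * ((2 * n).choose n : ℚ) := by
  have h : ((Polynomial.X + Polynomial.C (-1 : ℚ)) ^ (2 * n) * (Polynomial.X + 1) ^ (2 * n)).coeff (2 * n) =
      (Polynomial.expand ℚ 2 ((Polynomial.X + Polynomial.C (-1 : ℚ)) ^ (2 * n))).coeff (2 * n) := by
    rw [← mul_pow, map_pow, map_add, Polynomial.expand_X, Polynomial.expand_C]
    congr 2
    rw [Polynomial.C_neg, Polynomial.C_1]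
    ring
  rw [Polynomial.coeff_expand_mul' (by norm_num), Polynomial.coeff_mul,
    Finset.Nat.sum_antidiagonal_eq_sum_range_succ_mk, Polynomial.coeff_X_add_C_pow] at h
  have e : ∀ k ∈ range (2 * n).succ, ((Polynomial.X + Polynomial.C (-1 : ℚ)) ^ (2 * n)).coeff k *
      ((Polynomial.X + 1 : Polynomial ℚ) ^ (2 * n)).coeff (2 * n - k) =
      (-1 : ℚ) ^ k * ((2 * n).choose k : ℚ) ^ 2 := by
    intro k hk
    have hk' := mem_range.1 hk
    rw [Polynomial.coeff_X_add_C_pow, Polynomial.coeff_X_add_one_pow, Nat.choose_symm (by omega)]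
    have h1 : (-1 : ℚ) ^ (2 * n - k) = (-1) ^ k := by
      have h3 : (-1 : ℚ) ^ (2 * n - k) * (-1) ^ k = 1 := by
        rw [← pow_add, Nat.sub_add_cancel (by omega), pow_mul]; norm_num
      have h4 : (-1 : ℚ) ^ k * (-1) ^ k = 1 := by rw [← mul_pow]; norm_num
      have h5 : (-1 : ℚ) ^ k ≠ 0 := pow_ne_zero _ (by norm_num)
      apply mul_right_cancel₀ h5
      rw [h3, h4]
    rw [h1]
    ring
  rw [sum_congr rfl e] at h
  rw [h, show 2 * n - n = n by omega]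

theorem sum_even_odd (f : ℕ → ℝ) (N : ℕ) : ∑ k ∈ range (2 * N), f k =
    ∑ j ∈ range N, (f (2 * j) + f (2 * j + 1)) := by
  induction N with
  | zero => simp
  | succ N ih => rw [show 2 * (N + 1) = 2 * N + 1 + 1 by ring, sum_range_succ, sum_range_succ, ih,
      sum_range_succ]; ring

theorem four_exact (n : ℕ) : (-4 : ℚ) ^ n =
    ∑ j ∈ range (2 * n + 1), (-1) ^ j * ((4 * n + 1).choose (2 * j) : ℚ) := by
  have h0 : (Complex.I + 1) ^ (4 * n + 1) = ((((-4 : ℝ) ^ n : ℝ) : ℂ)) * (Complex.I + 1) := by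
    rw [pow_succ, pow_mul]
    congr 1
    have : (Complex.I + 1) ^ 4 = -4 := by
      have hI := Complex.I_sq
      linear_combination (Complex.I ^ 2 + 4 * Complex.I + 5) * hI
    rw [this]
    push_cast
    rfl
  have h1 : ((Complex.I + 1) ^ (4 * n + 1)).re = (-4 : ℝ) ^ n := by
    rw [h0, Complex.re_ofReal_mul]
    simp
  rw [add_pow, Complex.re_sum] at h1
  rw [show 4 * n + 1 + 1 = 2 * (2 * n + 1) by ring, sum_even_odd] at h1
  have e : ∀ j ∈ range (2 * n + 1), ((Complex.I ^ (2 * j) * 1 ^ (4 * n + 1 - 2 * j) *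
      ((4 * n + 1).choose (2 * j) : ℂ)).re + (Complex.I ^ (2 * j + 1) * 1 ^ (4 * n + 1 - (2 * j + 1)) *
      ((4 * n + 1).choose (2 * j + 1) : ℂ)).re) = (-1 : ℝ) ^ j * ((4 * n + 1).choose (2 * j) : ℝ) := by
    intro j _
    have a1 : Complex.I ^ (2 * j) = (((-1 : ℝ) ^ j : ℝ) : ℂ) := by
      rw [pow_mul, Complex.I_sq]; push_cast; rfl
    rw [pow_succ, a1, one_pow, one_pow, mul_one, mul_one]
    have a2 : ((4 * n + 1).choose (2 * j) : ℂ) = ((((4 * n + 1).choose (2 * j) : ℕ) : ℝ) : ℂ) := by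
      push_cast; rfl
    have a3 : ((4 * n + 1).choose (2 * j + 1) : ℂ) = ((((4 * n + 1).choose (2 * j + 1) : ℕ) : ℝ) : ℂ) := by
      push_cast; rfl
    rw [a2, a3, Complex.re_ofReal_mul, mul_assoc, Complex.re_ofReal_mul, Complex.re_mul_ofReal]
    simp
  rw [sum_congr rfl e] at h1
  have h2 : (((-4 : ℚ) ^ n : ℚ) : ℝ) = ((∑ j ∈ range (2 * n + 1), (-1) ^ j *
      ((4 * n + 1).choose (2 * j) : ℚ) : ℚ) : ℝ) := by
    push_cast
    rw [← h1]
  exact_mod_cast h2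

theorem alt_harm (n : ℕ) : ∑ j ∈ range (2 * n), (-1 : ℚ) ^ (j + 1) / ((j : ℚ) + 1) = H n - H (2 * n) := by
  induction n with
  | zero => simp [H]
  | succ n ih =>
    rw [show 2 * (n + 1) = 2 * n + 1 + 1 by ring, sum_range_succ, sum_range_succ, ih, H_succ, H_succ,
      H_succ]
    have h1 : (-1 : ℚ) ^ (2 * n + 1) = -1 := by rw [pow_succ, pow_mul]; norm_num
    have h2 : (-1 : ℚ) ^ (2 * n + 1 + 1) = 1 := by rw [pow_succ, h1]; norm_num
    rw [h1, h2]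
    have c1 : (n : ℚ) + 1 ≠ 0 := by positivity
    have c2 : 2 * (n : ℚ) + 1 ≠ 0 := by positivity
    push_cast
    have c3 : 2 * (n : ℚ) + 1 + 1 = 2 * (n + 1) := by ring
    rw [c3]
    field_simp
    ring

variable {p n : ℕ} [hp : Fact p.Prime]

/-! ### Reduction of the sum -/

theorem SX_QX (hpn : p = 4 * n + 1) {x : ℚ} (hx : x ∈ Zp p) :
    EQ p 2 (∑ k ∈ range p, gb (-1 / 4) k ^ 2 * x ^ k) (QX x n) := by
  have hn := hn0 hpn
  have e1 : QX x n = ∑ k ∈ range p, gb (n : ℚ) k * gb (-(n : ℚ) - 1 / 2) k * x ^ k := by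
    rw [QX]
    have h9 : p = n + 1 + 3 * n := by omega
    conv_rhs => rw [h9, sum_range_add]
    have h0 : ∑ i ∈ range (3 * n), gb (n : ℚ) (n + 1 + i) * gb (-(n : ℚ) - 1 / 2) (n + 1 + i) *
        x ^ (n + 1 + i) = 0 := by
      refine sum_eq_zero fun i _ => ?_
      rw [gb_choose, Nat.choose_eq_zero_of_lt (by omega : n < n + 1 + i)]
      simp
    rw [h0, add_zero]
    refine sum_congr rfl fun k _ => ?_
    rw [xt, gq, gb_choose]
  rw [e1]
  refine EQ.sum fun k hk => ?_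
  have hk' := mem_range.1 hk
  have u2 := unit2 hpn
  have u4 : U p (4 : ℚ) := by
    have := u2.mul u2
    norm_num at this
    exact this
  have uk := U_fac (p := p) hk'
  have h1 : EQ p 2 (∏ i ∈ range k, ((-1 / 4 - (i : ℚ)) ^ 2)) (∏ i ∈ range k, (((n : ℚ) - i) *
      (-(n : ℚ) - 1 / 2 - i))) := by
    refine EQ.prod fun i _ => ?_
    have m1 : (-1 / 4 - (i : ℚ)) ∈ Zp p := by
      refine sub_mem ?_ (nat_mem i)
      rw [div_eq_mul_inv]
      exact mul_mem (neg_mem (one_mem _)) u4.2.2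
    have m2 : ((n : ℚ) - i) ∈ Zp p := sub_mem (nat_mem n) (nat_mem i)
    have m3 : (-(n : ℚ) - 1 / 2 - i) ∈ Zp p := by
      refine sub_mem (sub_mem (neg_mem (nat_mem n)) ?_) (nat_mem i)
      rw [one_div]; exact u2.2.2
    refine ⟨pow_mem m1 2, mul_mem m2 m3, (4⁻¹ : ℚ) ^ 2, pow_mem u4.2.2 2, ?_⟩
    have h2 : (p : ℚ) = 4 * n + 1 := by exact_mod_cast hpn
    rw [h2]
    ring
  have h2 := (h1.mul (EQ.refl (k := 2) (uk.inv.pow 2).2.1)).mul
    (EQ.refl (k := 2) (pow_mem hx k))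
  have e2 : (∏ i ∈ range k, ((-1 / 4 - (i : ℚ)) ^ 2)) * ((k.factorial : ℚ)⁻¹) ^ 2 * x ^ k =
      gb (-1 / 4) k ^ 2 * x ^ k := by
    rw [gb, prod_pow]
    ring
  have e3 : (∏ i ∈ range k, (((n : ℚ) - i) * (-(n : ℚ) - 1 / 2 - i))) * ((k.factorial : ℚ)⁻¹) ^ 2 *
      x ^ k = gb (n : ℚ) k * gb (-(n : ℚ) - 1 / 2) k * x ^ k := by
    rw [gb, gb, prod_mul_distrib]
    ring
  rw [e2, e3] at h2
  exact h2

theorem TT_mem (hpn : p = 4 * n + 1) : TT (2 * n) ∈ Zp p :=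
  sum_mem fun k hk => mul_mem (pow_mem (neg_mem (one_mem _)) k)
    (pow_mem (ch_U (p := p) (m := 2 * n) (by omega) (by have := mem_range.1 hk; omega)).2.1 2)

/-- `2 ∑ C(2n,k) c_k = ∑ (-1)^k c_k^2 + (-1)^n C(2n,n)` modulo `p^2` -/
theorem GX_TT (hpn : p = 4 * n + 1) : EQ p 2 (2 * GX (2 * n))
    (TT (2 * n) + (-1) ^ n * ((2 * n).choose n : ℚ)) := by
  have hpm : p = 2 * (2 * n) + 1 := by omega
  rw [← alt_sq n, TT, GX, ← sum_add_distrib, mul_sum]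
  refine EQ.sum fun k hk => ?_
  have hk' := mem_range.1 hk
  have h1 := ch_choose hpm (k := k) (by omega)
  have s1 : (-1 : ℚ) ^ k ∈ Zp p := pow_mem (neg_mem (one_mem _)) k
  have hs : (-1 : ℚ) ^ k * (-1) ^ k = 1 := by rw [← mul_pow]; norm_num
  have m1 := h1.1
  have mC : ((2 * n).choose k : ℚ) ∈ Zp p := nat_mem _
  have h2 := ((h1.2.2.mul h1.2.2).mulL s1).neg
  refine ⟨mul_mem n2 (mul_mem mC m1), add_mem (mul_mem s1 (pow_mem m1 2)) (mul_mem s1 (pow_mem mC 2)), ?_⟩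
  convert h2 using 1
  rw [gt]
  generalize (-1 : ℚ) ^ k = s at *
  linear_combination (-(2 * ch k * ((2 * n).choose k : ℚ)) + s * ((2 * n).choose k : ℚ) ^ 2) * hs

/-- `(-4)^n = 1 + (p/2) (H_(2n) - H_n)` modulo `p^2` -/
theorem four_pow (hpn : p = 4 * n + 1) : EQ p 2 ((-4 : ℚ) ^ n)
    (1 + p * (2 : ℚ)⁻¹ * (H (2 * n) - H n)) := by
  have u2 := unit2 hpn
  rw [four_exact, sum_range_succ']
  have e1 : 1 + p * (2 : ℚ)⁻¹ * (H (2 * n) - H n) = ∑ j ∈ range (2 * n),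
      (-(p * (2 : ℚ)⁻¹ * ((-1 : ℚ) ^ (j + 1) / ((j : ℚ) + 1)))) + 1 := by
    rw [sum_neg_distrib, ← mul_sum, alt_harm]
    ring
  rw [e1]
  have e2 : (-1 : ℚ) ^ 0 * ((4 * n + 1).choose (2 * 0) : ℚ) = 1 := by simp
  rw [e2]
  refine EQ.add (EQ.sum fun j hj => ?_) (EQ.refl (one_mem _))
  have hj' := mem_range.1 hj
  have uj := U_nat (p := p) (k := j + 1) (by omega) (by omega)
  have h1 := ch_diag (4 * n) (2 * j + 1)
  have h2 := choose_pm2 (p := p) (k := 2 * j + 1) (by omega)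
  rw [show p - 1 = 4 * n by omega] at h2
  have h3 : I p 1 ((((4 * n).choose (2 * j + 1) : ℕ) : ℚ) + 1) := by
    have h4 := h2.2.2.mono (by norm_num : 1 ≤ 2)
    have hH := H_mem (p := p) (m := 2 * j + 1) (by omega)
    have h5 := (I_p (p := p)).mulR hH
    have h6 : (-1 : ℚ) ^ (2 * j + 1) = -1 := by rw [pow_succ, pow_mul]; norm_num
    rw [h6] at h4
    have h7 := h4.add h5
    convert h7 using 1
    ring
  have s1 : (-1 : ℚ) ^ (j + 1) ∈ Zp p := pow_mem (neg_mem (one_mem _)) _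
  push_cast at uj h1
  have a1 := uj.1
  refine ⟨mul_mem s1 (nat_mem _), neg_mem (mul_mem (mul_mem p_mem u2.2.2) ?_), ?_⟩
  · rw [div_eq_mul_inv]; exact mul_mem s1 uj.2.2
  · have h8 := ((I_p (p := p)).mul h3).mulR (mul_mem s1 (mul_mem u2.2.2 uj.2.2))
    have h9 : (((4 * n + 1).choose (2 * (j + 1)) : ℕ) : ℚ) =
        ((4 * n).choose (2 * j + 1) : ℚ) * p * ((2 : ℚ)⁻¹ * ((j : ℚ) + 1)⁻¹) := by
      have hpq : (p : ℚ) = 4 * n + 1 := by exact_mod_cast hpn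
      rw [hpq, show 2 * (j + 1) = 2 * j + 1 + 1 by ring]
      field_simp
      linear_combination h1
    rw [h9]
    convert h8 using 1
    rw [div_eq_mul_inv]
    ring

/-- `(-1)^n C(2n,n) = T (-4)^n` modulo `p^2` -/
theorem C_T (hpn : p = 4 * n + 1) : EQ p 2 ((-1) ^ n * ((2 * n).choose n : ℚ))
    (TT (2 * n) * (-4) ^ n) := by
  have hn := hn0 hpn
  have u2 := unit2 hpn
  have h1 := TT_val hpn
  have h2 := four_pow hpn
  have m1 := H_mem (p := p) (m := n) (by omega)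
  have m2 := H_mem (p := p) (m := 2 * n) (by omega)
  have ha := p_half_I (p := p) u2 (sub_mem m2 m1)
  have ms : (-1 : ℚ) ^ n ∈ Zp p := pow_mem (neg_mem (one_mem _)) n
  have mC : ((2 * n).choose n : ℚ) ∈ Zp p := nat_mem _
  have h3 := h1.mul h2
  refine EQ.symm (h3.trans ⟨h3.2.1, mul_mem ms mC, ?_⟩)
  have h4 := ((ha.mul ha).mulL (mul_mem ms mC)).neg
  convert h4 using 1
  ring

/-- the main reduction -/
theorem main_red (hpn : p = 4 * n + 1) : EQ p 2 (2 * 2 ^ n * ∑ k ∈ range p, gb (-1 / 4) k ^ 2 / (-8) ^ k)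
    (TT (2 * n) * (1 + (-4) ^ n)) := by
  have u2 := unit2 hpn
  have u8 : U p (-8 : ℚ) := by
    have := (u2.mul u2).mul u2
    norm_num at this
    refine ⟨by norm_num, neg_mem this.2.1, ?_⟩
    have e : (-8 : ℚ)⁻¹ = -(8⁻¹) := by norm_num
    rw [e]; exact neg_mem this.2.2
  have hx : (-1 / 8 : ℚ) ∈ Zp p := by
    have e : (-1 / 8 : ℚ) = (-8)⁻¹ := by norm_num
    rw [e]; exact u8.2.2
  have h1 := SX_QX hpn hx
  have e1 : ∑ k ∈ range p, gb (-1 / 4) k ^ 2 / (-8) ^ k = ∑ k ∈ range p, gb (-1 / 4) k ^ 2 * (-1 / 8 : ℚ) ^ k := by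
    refine sum_congr rfl fun k _ => ?_
    rw [div_eq_mul_inv, ← inv_pow]
    norm_num
  rw [e1]
  have m2n : (2 : ℚ) * 2 ^ n ∈ Zp p := mul_mem n2 (pow_mem n2 n)
  have h2 := (EQ.refl (k := 2) m2n).mul h1
  have e2 : 2 * 2 ^ n * QX (-1 / 8) n = 2 * GX (2 * n) := by rw [mul_assoc, QX_GX]
  rw [e2] at h2
  have h3 := h2.trans (GX_TT hpn)
  have h4 := h3.trans ((EQ.refl (k := 2) (TT_mem hpn)).add (C_T hpn))
  have e3 : TT (2 * n) + TT (2 * n) * (-4) ^ n = TT (2 * n) * (1 + (-4) ^ n) := by ring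
  rwa [e3] at h4

/-- the value of `T` -/
theorem TT_x (hpn : p = 4 * n + 1) {x y : ℤ} (h : (p : ℤ) = x ^ 2 + y ^ 2) (hx : x % 4 = 1) :
    EQ p 2 (TT (2 * n)) ((-1) ^ n * (2 * x - p / (2 * x))) := by
  have s1 := SQ_QQ hpn
  rw [QQ_DD] at s1
  have s2 := DD_TT (p := p) (m := 2 * n) (by omega)
  exact (s1.trans s2).symm.trans (SQ_val hpn h hx)

theorem I_of_dvd {z : ℤ} (h : (p : ℤ) ∣ z) : I p 1 (z : ℚ) := by
  obtain ⟨w, rfl⟩ := h
  exact ⟨w, int_mem w, by push_cast; ring⟩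

theorem U_two_pow (hpn : p = 4 * n + 1) : U p (2 * 2 ^ n : ℚ) := (unit2 hpn).mul ((unit2 hpn).pow n)

/-- `n` even -/
theorem fin_even (hpn : p = 4 * n + 1) (hn : Even n) {e : ℤ} (he : e = 1 ∨ e = -1)
    (hd : (p : ℤ) ∣ 2 ^ n - e) :
    EQ p 2 (∑ k ∈ range p, gb (-1 / 4) k ^ 2 / (-8) ^ k) (e * TT (2 * n)) := by
  have h1 := main_red hpn
  have u := U_two_pow hpn
  have h2 := I_of_dvd hd
  have mT := TT_mem hpn
  push_cast at h2
  have e1 : (-4 : ℚ) ^ n = (2 ^ n) ^ 2 := by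
    rw [← pow_mul, mul_comm n 2, pow_mul, hn.neg_pow]; norm_num
  have e2 : (e : ℚ) ^ 2 = 1 := by rcases he with rfl | rfl <;> norm_num
  rw [e1] at h1
  have mS : (∑ k ∈ range p, gb (-1 / 4) k ^ 2 / (-8) ^ k) ∈ Zp p := by
    have := mul_mem u.2.2 h1.1
    rwa [inv_mul_cancel_left₀ u.1] at this
  have me : (e : ℚ) ∈ Zp p := int_mem e
  refine ⟨mS, mul_mem me mT, u.cancel ?_⟩
  have h3 := h1.2.2.add ((h2.mul h2).mulR mT)
  generalize (2 : ℚ) ^ n = w at *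
  convert h3 using 1
  linear_combination (-(TT (2 * n))) * e2

omit hp in
theorem x_facts {x y : ℤ} (h : (p : ℤ) = x ^ 2 + y ^ 2) (hx : x ≠ 0) (hy : y ≠ 0) :
    ¬ (p : ℤ) ∣ x := by
  intro hd
  have h1 : x.natAbs < p := by
    have h2 : (x.natAbs : ℤ) < p := by
      rw [Int.natCast_natAbs, h]
      have h3 : 0 < y ^ 2 := by positivity
      have h4 : |x| ≤ x ^ 2 := by
        rw [← sq_abs x]
        have : 1 ≤ |x| := Int.one_le_abs hx
        nlinarith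
      omega
    exact_mod_cast h2
  have h5 : p ∣ x.natAbs := by exact_mod_cast (Int.natCast_dvd.1 hd)
  have h6 : 0 < x.natAbs := Int.natAbs_pos.2 hx
  exact absurd (Nat.le_of_dvd h6 h5) (by omega)

/-- `n` odd -/
theorem fin_odd (hpn : p = 4 * n + 1) (hn : Odd n) {x y : ℤ} (h : (p : ℤ) = x ^ 2 + y ^ 2)
    (hx4 : x % 4 = 1) (hy0 : y ≠ 0) {e : ℤ} (he : e = 1 ∨ e = -1) (hd : (p : ℤ) ∣ 2 ^ n * x - e * y) :
    EQ p 2 (∑ k ∈ range p, gb (-1 / 4) k ^ 2 / (-8) ^ k) (e * (2 * y - p / (2 * y))) := by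
  have hx0 : x ≠ 0 := by rintro rfl; norm_num at hx4
  have h1 := main_red hpn
  have hT := TT_x hpn h hx4
  have u := U_two_pow hpn
  have u2 := unit2 hpn
  have ux : U p (x : ℚ) := U_int (x_facts h hx0 hy0)
  have uy : U p (y : ℚ) := U_int (x_facts (by rw [h]; ring) hy0 hx0)
  have h2 := I_of_dvd hd
  push_cast at h2
  have e1 : (-4 : ℚ) ^ n = -(2 ^ n) ^ 2 := by
    rw [← pow_mul, mul_comm n 2, pow_mul, hn.neg_pow]; norm_num
  have e2 : (e : ℚ) ^ 2 = 1 := by rcases he with rfl | rfl <;> norm_num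
  have e3 : (-1 : ℚ) ^ n = -1 := hn.neg_one_pow
  rw [e1] at h1
  rw [e3] at hT
  have mS : (∑ k ∈ range p, gb (-1 / 4) k ^ 2 / (-8) ^ k) ∈ Zp p := by
    have := mul_mem u.2.2 h1.1
    rwa [inv_mul_cancel_left₀ u.1] at this
  have me : (e : ℚ) ∈ Zp p := int_mem e
  have mw : (2 : ℚ) ^ n ∈ Zp p := pow_mem n2 n
  have mY : (2 * (y : ℚ) - p / (2 * y)) ∈ Zp p := by
    refine sub_mem (mul_mem n2 (int_mem y)) ?_
    rw [div_eq_mul_inv]
    exact mul_mem p_mem (u2.mul uy).2.2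
  have h5 := h1.trans (hT.mul (EQ.refl (k := 2) (add_mem (one_mem (Zp p)) (neg_mem (pow_mem mw 2)))))
  refine ⟨mS, mul_mem me mY, u.cancel ?_⟩
  have hp2 : (p : ℚ) = (x : ℚ) ^ 2 + (y : ℚ) ^ 2 := by exact_mod_cast h
  have nx := ux.1
  have ny := uy.1
  have hX : (2 * (x : ℚ) - p / (2 * x)) * (2 * x) = 4 * x ^ 2 - p := by field_simp; ring
  have hY : (2 * (y : ℚ) - p / (2 * y)) * (2 * y) = 4 * y ^ 2 - p := by field_simp; ring
  have uxy : U p (2 * (x : ℚ) ^ 3 * y) := (u2.mul (ux.pow 3)).mul uy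
  refine uxy.cancel ?_
  have mx := ux.2.1
  have my := uy.2.1
  have h6 := h5.2.2.mulL uxy.2.1
  have q1 : I p 2 ((p : ℚ) * (2 ^ n * x - e * y)) := (I_p (p := p)).mul h2
  have q2 : I p 2 (((2 : ℚ) ^ n * x - e * y) * (2 ^ n * x - e * y)) := h2.mul h2
  have q3 : I p 2 ((p : ℚ) * p) := (I_p (p := p)).mul (I_p (p := p))
  have r1 := q1.mulL (mul_mem n2 (mul_mem me (sub_mem (pow_mem mx 2) (pow_mem my 2))))
  have r2 := q2.mulL (mul_mem my (sub_mem (mul_mem (mul_mem n2 n2) (pow_mem mx 2)) p_mem))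
  have r3 := q3.mulL my
  have h7 := ((h6.add r1).add r2).sub r3
  generalize (2 * (x : ℚ) - p / (2 * x)) = X at *
  generalize (2 * (y : ℚ) - p / (2 * y)) = Y at *
  generalize (∑ k ∈ range p, gb (-1 / 4) k ^ 2 / (-8) ^ k) = S at *
  generalize (2 : ℚ) ^ n = w at *
  rw [hp2] at hX hY
  convert h7 using 1
  rw [hp2]
  rcases he with rfl | rfl
  · push_cast
    linear_combination (-2 * (x : ℚ) ^ 3 * w) * hY - (x : ℚ) ^ 2 * y * (1 - w ^ 2) * hX
  · push_cast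
    linear_combination (2 * (x : ℚ) ^ 3 * w) * hY - (x : ℚ) ^ 2 * y * (1 - w ^ 2) * hX

end Pool.Agent.P8H8.FD2
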