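import Mathlib

set_option autoImplicit false

/-!
The quartic character of `2` modulo a prime `p = 4n+1 = x^2 + y^2` (Gauss, Dirichlet).
-/

namespace Pool.Agent.P8H8.FD2

theorem sq16 (s : ℕ) (hs : s % 2 = 1) : ((s % 8 = 1 ∨ s % 8 = 7) ∧ (s * s) % 16 = 1) ∨
    (¬ (s % 8 = 1 ∨ s % 8 = 7) ∧ (s * s) % 16 = 9) := by
  have h : s % 16 < 16 := Nat.mod_lt _ (by norm_num)
  have h2 : (s * s) % 16 = ((s % 16) * (s % 16)) % 16 := Nat.mul_mod s s 16
  have h3 : s % 8 = (s % 16) % 8 := by omega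
  have h4 : s % 2 = (s % 16) % 2 := by omega
  rw [h2, h3]
  rw [h4] at hs
  generalize s % 16 = r at *
  interval_cases r <;> simp_all

theorem abs_cop {u v : ℤ} (h : IsCoprime u v) : u.gcd (v.natAbs : ℤ) = 1 := by
  rw [← Int.isCoprime_iff_gcd_eq_one, Int.natCast_natAbs]
  rcases abs_choice v with h1 | h1
  · rw [h1]; exact h
  · rw [h1]; exact h.neg_right

variable {p n : ℕ} [hp : Fact p.Prime]

theorem pow_jac (hpn : p = 4 * n + 1) {z : ℤ} (hz : z % 2 = 1) :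
    ((z : ZMod p)) ^ (2 * n) = ((jacobiSym (p : ℤ) z.natAbs : ℤ) : ZMod p) := by
  have h1 : Odd z.natAbs := by
    rw [Int.natAbs_odd]; exact Int.odd_iff.2 hz
  have h2 := jacobiSym.quadratic_reciprocity_one_mod_four (a := p) (b := z.natAbs) (by omega) h1
  rw [h2]
  have h3 := jacobiSym.legendreSym.to_jacobiSym p (z.natAbs : ℤ)
  have h4 := legendreSym.eq_pow p (z.natAbs : ℤ)
  rw [h3] at h4
  rw [h4, show p / 2 = 2 * n by omega, Int.natCast_natAbs]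
  rcases abs_choice z with h | h
  · rw [h]
  · rw [h, Int.cast_neg, Even.neg_pow (even_two_mul n)]

theorem cop {x y : ℤ} (h : (p : ℤ) = x ^ 2 + y ^ 2) : IsCoprime x y := by
  rw [Int.isCoprime_iff_gcd_eq_one]
  have h1 : ((Int.gcd x y : ℕ) : ℤ) ∣ x := Int.gcd_dvd_left x y
  have h2 : ((Int.gcd x y : ℕ) : ℤ) ∣ y := Int.gcd_dvd_right x y
  have h3 : ((Int.gcd x y : ℕ) : ℤ) ^ 2 ∣ (p : ℤ) := by
    rw [h]; exact dvd_add (pow_dvd_pow_of_dvd h1 2) (pow_dvd_pow_of_dvd h2 2)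
  have h4 : Int.gcd x y * Int.gcd x y ∣ p := by
    rw [← sq]; exact_mod_cast h3
  exact Nat.isUnit_iff.1 (hp.out.prime.squarefree _ h4)

theorem jac_x (hpn : p = 4 * n + 1) {x y : ℤ} (h : (p : ℤ) = x ^ 2 + y ^ 2) (hx : x % 2 = 1) :
    (x : ZMod p) ^ (2 * n) = 1 := by
  rw [pow_jac hpn hx]
  have h1 : jacobiSym (p : ℤ) x.natAbs = jacobiSym (y ^ 2) x.natAbs := by
    apply jacobiSym.mod_left'
    rw [Int.emod_eq_emod_iff_emod_sub_eq_zero]
    apply Int.emod_eq_zero_of_dvd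
    rw [h, add_sub_cancel_right]
    exact Dvd.dvd.pow (Int.natAbs_dvd.2 (dvd_refl x)) (by norm_num)
  rw [h1, jacobiSym.sq_one' (abs_cop (cop h).symm)]
  simp

theorem jac_xy (hpn : p = 4 * n + 1) {x y : ℤ} (h : (p : ℤ) = x ^ 2 + y ^ 2) (hxy : (x + y) % 2 = 1) :
    ∃ c : ℤ, (2 * (x : ZMod p) * y) ^ n = (c : ZMod p) ∧
      ((c = 1 ∧ ((x + y) ^ 2) % 16 = 1) ∨ (c = -1 ∧ ((x + y) ^ 2) % 16 = 9)) := by
  refine ⟨jacobiSym (p : ℤ) (x + y).natAbs, ?_, ?_⟩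
  · rw [← pow_jac hpn hxy, pow_mul]
    congr 1
    have h1 : ((p : ℤ) : ZMod p) = ((x ^ 2 + y ^ 2 : ℤ) : ZMod p) := by rw [h]
    push_cast at h1 ⊢
    rw [ZMod.natCast_self] at h1
    linear_combination h1
  · have hodd : Odd (x + y).natAbs := by
      rw [Int.natAbs_odd]; exact Int.odd_iff.2 hxy
    have hcop : IsCoprime (x - y) (x + y) := by
      have c1 : IsCoprime x (x + y) := by
        have := (cop h).add_mul_left_right 1
        rwa [mul_one, add_comm] at this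
      have c2 : IsCoprime (2 : ℤ) (x + y) := by
        refine ⟨-((x + y) / 2), 1, ?_⟩
        have := Int.emod_add_mul_ediv (x + y) 2
        linarith
      have c3 := (c2.mul_left c1).add_mul_right_left (-1)
      have e : 2 * x + -1 * (x + y) = x - y := by ring
      rwa [e] at c3
    have h1 : jacobiSym (2 * (p : ℤ)) (x + y).natAbs = 1 := by
      rw [← jacobiSym.sq_one' (abs_cop hcop)]
      apply jacobiSym.mod_left'
      rw [Int.emod_eq_emod_iff_emod_sub_eq_zero]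
      apply Int.emod_eq_zero_of_dvd
      have e : 2 * (p : ℤ) - (x - y) ^ 2 = (x + y) ^ 2 := by rw [h]; ring
      rw [e]
      exact Dvd.dvd.pow (Int.natAbs_dvd.2 (dvd_refl _)) (by norm_num)
    rw [jacobiSym.mul_left, jacobiSym.at_two hodd, ZMod.χ₈_nat_eq_if_mod_eight] at h1
    have h2 : (x + y).natAbs % 2 = 1 := Nat.odd_iff.1 hodd
    have h3 := sq16 _ h2
    have h4 : (((x + y).natAbs * (x + y).natAbs : ℕ) : ℤ) = (x + y) ^ 2 := by
      rw [Nat.cast_mul, Int.natAbs_mul_self', sq]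
    rw [if_neg (by omega)] at h1
    rcases h3 with ⟨h5, h6⟩ | ⟨h5, h6⟩
    · left
      rw [if_pos h5, one_mul] at h1
      refine ⟨h1, ?_⟩
      rw [← h4]
      omega
    · right
      rw [if_neg h5] at h1
      refine ⟨by linarith, ?_⟩
      rw [← h4]
      omega

omit hp in
theorem y_even {x y : ℤ} (hpn : p = 4 * n + 1) (h : (p : ℤ) = x ^ 2 + y ^ 2) (hx : x % 2 = 1) :
    y % 2 = 0 := by
  rcases Int.emod_two_eq_zero_or_one y with h1 | h1
  · exact h1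
  · exfalso
    have a1 : x ^ 2 % 4 = 1 := Int.sq_mod_four_eq_one_of_odd (Int.odd_iff.2 hx)
    have a2 : y ^ 2 % 4 = 1 := Int.sq_mod_four_eq_one_of_odd (Int.odd_iff.2 h1)
    omega

/-- the case `p = 8m+1` -/
theorem quart_even {m : ℕ} (hnm : n = 2 * m) (hpn : p = 4 * n + 1) {x y : ℤ}
    (h : (p : ℤ) = x ^ 2 + y ^ 2) (hx : x % 2 = 1) :
    ∃ t : ℤ, y = 4 * t ∧ ∃ e : ℤ, ((e = 1 ∧ Even t) ∨ (e = -1 ∧ Odd t)) ∧ (p : ℤ) ∣ 2 ^ n - e := by
  have hy := y_even hpn h hx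
  obtain ⟨w, hw⟩ : ∃ w, y = 2 * w := ⟨y / 2, by omega⟩
  obtain ⟨v, hv⟩ : ∃ v, x = 2 * v + 1 := ⟨x / 2, by omega⟩
  have hv2 : ∃ r, v * (v + 1) = 2 * r := (Int.even_mul_succ_self v).exists_two_nsmul.imp fun r hr => by
    rw [hr, nsmul_eq_mul]; rfl
  obtain ⟨r, hr⟩ := hv2
  have e1 : (8 * (m : ℤ) + 1) = 4 * (v * (v + 1)) + 1 + 4 * (w * w) := by
    have : (p : ℤ) = 8 * m + 1 := by rw [hpn, hnm]; push_cast; ring
    rw [← this, h, hv, hw]; ring
  have hw2 : w % 2 = 0 := by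
    rcases Int.emod_two_eq_zero_or_one w with h1 | h1
    · exact h1
    · exfalso
      have a2 : w ^ 2 % 4 = 1 := Int.sq_mod_four_eq_one_of_odd (Int.odd_iff.2 h1)
      rw [sq] at a2
      omega
  obtain ⟨t, ht⟩ : ∃ t, w = 2 * t := ⟨w / 2, by omega⟩
  refine ⟨t, by rw [hw, ht]; ring, ?_⟩
  obtain ⟨c, hc1, hc2⟩ := jac_xy hpn h (by omega)
  have hX := jac_x hpn h hx
  -- the relation in `ZMod p`
  have h1 : ((x : ZMod p)) ^ 2 + (y : ZMod p) ^ 2 = 0 := by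
    have h1 : ((p : ℤ) : ZMod p) = ((x ^ 2 + y ^ 2 : ℤ) : ZMod p) := by rw [h]
    push_cast at h1
    rw [ZMod.natCast_self] at h1
    exact h1.symm
  have h2 : (2 * (x : ZMod p) * y) ^ n = 2 ^ n * (-1) ^ m * x ^ (2 * n) := by
    have e2 : (y : ZMod p) ^ 2 = -(x : ZMod p) ^ 2 := by linear_combination h1
    rw [mul_pow, mul_pow, hnm]
    have e3 : (y : ZMod p) ^ (2 * m) = (-1) ^ m * ((x : ZMod p) ^ 2) ^ m := by
      rw [pow_mul, e2, neg_pow]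
    rw [e3, ← pow_mul, show 2 * (2 * m) = 2 * m + 2 * m by ring, pow_add (x : ZMod p)]
    ring
  rw [hX, mul_one, hc1] at h2
  have hs : (-1 : ZMod p) ^ m * (-1) ^ m = 1 := by rw [← mul_pow]; norm_num
  have h3 : (2 : ZMod p) ^ n = c * (-1) ^ m := by
    rw [h2, mul_assoc, hs, mul_one]
  -- parity
  have e4 : (x + y) ^ 2 = 8 * m + 1 + 16 * (v * t) + 8 * t := by
    have : (p : ℤ) = 8 * m + 1 := by rw [hpn, hnm]; push_cast; ring
    rw [← this, h, hw, ht, hv]; ring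
  rw [e4] at hc2
  refine ⟨c * (-1) ^ m, ?_, ?_⟩
  · rcases Nat.even_or_odd m with hm | hm
    · rw [hm.neg_one_pow, mul_one]
      obtain ⟨m', hm'⟩ := hm
      rcases hc2 with ⟨hc, hc'⟩ | ⟨hc, hc'⟩
      · left; exact ⟨hc, by rw [Int.even_iff]; omega⟩
      · right; exact ⟨hc, by rw [Int.odd_iff]; omega⟩
    · rw [hm.neg_one_pow]
      obtain ⟨m', hm'⟩ := hm
      rcases hc2 with ⟨hc, hc'⟩ | ⟨hc, hc'⟩
      · right; exact ⟨by rw [hc]; norm_num, by rw [Int.odd_iff]; omega⟩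
      · left; exact ⟨by rw [hc]; norm_num, by rw [Int.even_iff]; omega⟩
  · rw [← ZMod.intCast_zmod_eq_zero_iff_dvd]
    push_cast
    rw [h3, sub_self]

/-- the case `p = 8m+5` -/
theorem quart_odd {m : ℕ} (hnm : n = 2 * m + 1) (hpn : p = 4 * n + 1) {x y : ℤ}
    (h : (p : ℤ) = x ^ 2 + y ^ 2) (hx : x % 4 = 1) :
    ∃ t : ℤ, y = 4 * t + 2 ∧ ∃ e : ℤ, ((e = 1 ∧ Even t) ∨ (e = -1 ∧ Odd t)) ∧
      (p : ℤ) ∣ 2 ^ n * x - e * y := by
  have hy := y_even hpn h (by omega)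
  obtain ⟨w, hw⟩ : ∃ w, y = 2 * w := ⟨y / 2, by omega⟩
  obtain ⟨v, hv⟩ : ∃ v, x = 4 * v + 1 := ⟨x / 4, by omega⟩
  have e1 : (8 * (m : ℤ) + 5) = 16 * (v * v) + 8 * v + 1 + 4 * (w * w) := by
    have : (p : ℤ) = 8 * m + 5 := by rw [hpn, hnm]; push_cast; ring
    rw [← this, h, hv, hw]; ring
  have hw2 : w % 2 = 1 := by
    rcases Int.emod_two_eq_zero_or_one w with h1 | h1
    · exfalso
      obtain ⟨w', rfl⟩ : ∃ w', w = 2 * w' := ⟨w / 2, by omega⟩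
      have e2 : 2 * w' * (2 * w') = 4 * (w' * w') := by ring
      rw [e2] at e1
      omega
    · exact h1
  obtain ⟨t, ht⟩ : ∃ t, w = 2 * t + 1 := ⟨w / 2, by omega⟩
  refine ⟨t, by rw [hw, ht]; ring, ?_⟩
  obtain ⟨c, hc1, hc2⟩ := jac_xy hpn h (by omega)
  have hX := jac_x hpn h (by omega)
  have h1 : ((x : ZMod p)) ^ 2 + (y : ZMod p) ^ 2 = 0 := by
    have h1 : ((p : ℤ) : ZMod p) = ((x ^ 2 + y ^ 2 : ℤ) : ZMod p) := by rw [h]
    push_cast at h1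
    rw [ZMod.natCast_self] at h1
    exact h1.symm
  have hx0 : (x : ZMod p) ≠ 0 := by
    intro h0
    rw [h0, zero_pow (by omega)] at hX
    exact zero_ne_one hX
  have h2 : (2 * (x : ZMod p) * y) ^ n * x = 2 ^ n * y * (-1) ^ m * x ^ (2 * n) := by
    have e2 : (y : ZMod p) ^ 2 = -(x : ZMod p) ^ 2 := by linear_combination h1
    rw [mul_pow, mul_pow, hnm]
    have e3 : (y : ZMod p) ^ (2 * m + 1) = (-1) ^ m * ((x : ZMod p) ^ 2) ^ m * y := by
      rw [pow_succ, pow_mul, e2, neg_pow]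
    rw [e3, ← pow_mul, show 2 * (2 * m + 1) = 2 * m + 2 * m + 1 + 1 by ring]
    ring
  rw [hX, mul_one, hc1] at h2
  have hs : (-1 : ZMod p) ^ m * (-1) ^ m = 1 := by rw [← mul_pow]; norm_num
  have h3 : (2 : ZMod p) ^ n * x = -(c * (-1) ^ m) * y := by
    apply mul_right_cancel₀ hx0
    linear_combination (2 : ZMod p) ^ n * h1 + (-1) ^ m * (y : ZMod p) * h2 +
      (2 : ZMod p) ^ n * (y : ZMod p) ^ 2 * hs
  have e4 : (x + y) ^ 2 = 8 * m + 5 + 16 * (2 * (v * t) + v) + 8 * t + 4 := by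
    have : (p : ℤ) = 8 * m + 5 := by rw [hpn, hnm]; push_cast; ring
    rw [← this, h, hw, ht, hv]; ring
  rw [e4] at hc2
  refine ⟨-(c * (-1) ^ m), ?_, ?_⟩
  · rcases Nat.even_or_odd m with hm | hm
    · rw [hm.neg_one_pow, mul_one]
      obtain ⟨m', hm'⟩ := hm
      rcases hc2 with ⟨hc, hc'⟩ | ⟨hc, hc'⟩
      · right; exact ⟨by rw [hc], by rw [Int.odd_iff]; omega⟩
      · left; exact ⟨by rw [hc]; norm_num, by rw [Int.even_iff]; omega⟩
    · rw [hm.neg_one_pow]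
      obtain ⟨m', hm'⟩ := hm
      rcases hc2 with ⟨hc, hc'⟩ | ⟨hc, hc'⟩
      · left; exact ⟨by rw [hc]; norm_num, by rw [Int.even_iff]; omega⟩
      · right; exact ⟨by rw [hc]; norm_num, by rw [Int.odd_iff]; omega⟩
  · rw [← ZMod.intCast_zmod_eq_zero_iff_dvd]
    push_cast
    rw [h3]
    ring

end Pool.Agent.P8H8.FD2
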